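import Pool.Agent.K1H45.HF.Ser

/-!
The evaluation homomorphism `F(C^N) → WAlg D`; the piece `t_EVAL` of MP_da1489_an.
-/

namespace K1H45.HF

open K1H25.HF K1H25.HF.WAlg

variable {Γ : Type} [AddMonoid Γ] [Finset.HasAntidiagonal Γ] {D : WData Γ} {N : ℕ}

/-- the value of a word -/
noncomputable def ev (f : Fin N → WAlg D) (w : Words N) : WAlg D := ((FreeAddMonoid.toList w).map f).prod

theorem ev_add (f : Fin N → WAlg D) (u v : Words N) : ev f (u + v) = ev f u * ev f v := by
  unfold ev; rw [FreeAddMonoid.toList_add, List.map_append, List.prod_append]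

theorem ev_zero (f : Fin N → WAlg D) : ev f 0 = 1 := rfl

theorem ev_of (f : Fin N → WAlg D) (s : Fin N) : ev f (FreeAddMonoid.of s) = f s := by
  unfold ev; rw [FreeAddMonoid.toList_of]; simp

theorem list_le (f : Fin N → WAlg D) (i : D.I) (Q : ℝ) (hQ : 0 ≤ Q) (h : ∀ s, nrm i (f s) ≤ Q)
    (l : List (Fin N)) : nrm i (l.map f).prod ≤ Q ^ l.length := by
  induction l with
  | nil => simp [nrm_one]
  | cons s l ih =>
    rw [List.map_cons, List.prod_cons, List.length_cons, pow_succ']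
    exact (nrm_mul i _ _).trans (mul_le_mul (h s) ih (nrm_nonneg i _) hQ)

theorem list_lip (f g : Fin N → WAlg D) (i : D.I) (Q δ : ℝ) (hQ : 1 ≤ Q) (hδ : 0 ≤ δ)
    (hf : ∀ s, nrm i (f s) ≤ Q) (hg : ∀ s, nrm i (g s) ≤ Q) (hd : ∀ s, nrm i (f s - g s) ≤ δ)
    (l : List (Fin N)) : nrm i ((l.map f).prod - (l.map g).prod) ≤ δ * (2 * Q) ^ l.length := by
  induction l with
  | nil => simp [nrm_zero, hδ]
  | cons s l ih =>
    rw [List.map_cons, List.prod_cons, List.map_cons, List.prod_cons, List.length_cons]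
    have e : f s * (l.map f).prod - g s * (l.map g).prod
        = (f s - g s) * (l.map f).prod + g s * ((l.map f).prod - (l.map g).prod) := by
      rw [sub_mul, mul_sub]; abel
    rw [e]
    have h1 : nrm i ((f s - g s) * (l.map f).prod) ≤ δ * Q ^ l.length :=
      (nrm_mul i _ _).trans (mul_le_mul (hd s) (list_le f i Q (by linarith) hf l) (nrm_nonneg i _) hδ)
    have h2 : nrm i (g s * ((l.map f).prod - (l.map g).prod)) ≤ Q * (δ * (2 * Q) ^ l.length) :=
      (nrm_mul i _ _).trans (mul_le_mul (hg s) ih (nrm_nonneg i _) (by linarith))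
    have h3 : Q ^ l.length ≤ (2 * Q) ^ l.length := pow_le_pow_left₀ (by linarith) (by linarith) _
    have h4 : 0 ≤ (2 * Q) ^ l.length := pow_nonneg (by linarith) _
    calc nrm i ((f s - g s) * (l.map f).prod + g s * ((l.map f).prod - (l.map g).prod))
        ≤ δ * Q ^ l.length + Q * (δ * (2 * Q) ^ l.length) := (nrm_add i _ _).trans (add_le_add h1 h2)
      _ ≤ δ * (Q * (2 * Q) ^ l.length) + Q * (δ * (2 * Q) ^ l.length) := by
          refine add_le_add (mul_le_mul_of_nonneg_left ?_ hδ) le_rfl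
          exact h3.trans (le_mul_of_one_le_left h4 hQ)
      _ = δ * (2 * Q) ^ (l.length + 1) := by ring

theorem ev_le (f : Fin N → WAlg D) (i : D.I) (Q : ℝ) (hQ : 0 ≤ Q) (h : ∀ s, nrm i (f s) ≤ Q)
    (w : Words N) : nrm i (ev f w) ≤ Q ^ wlen w := list_le f i Q hQ h _

/-- the terms -/
noncomputable def trm (f : Fin N → WAlg D) (F : FreeF N) (w : Words N) : WAlg D := F.cf w • ev f w

theorem trm_le (f : Fin N → WAlg D) (i : D.I) (Q : ℝ) (hQ : 0 ≤ Q) (h : ∀ s, nrm i (f s) ≤ Q)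
    (F : FreeF N) (w : Words N) : nrm i (trm f F w) ≤ ‖F.cf w‖ * Q ^ wlen w := by
  unfold trm
  rw [nrm_smul]
  exact mul_le_mul_of_nonneg_left (ev_le f i Q hQ h w) (norm_nonneg _)

theorem free_summ (F : FreeF N) (Q : ℝ) (hQ : 0 < Q) : Summable fun w => ‖F.cf w‖ * Q ^ wlen w :=
  F.summ (⟨Q, hQ⟩ : {R : ℝ // 0 < R})

theorem free_nrm (F : FreeF N) (Q : ℝ) (hQ : 0 < Q) :
    nrm (D := freeData N) ⟨Q, hQ⟩ F = ∑' w, ‖F.cf w‖ * Q ^ wlen w := rfl

theorem exQ (f : Fin N → WAlg D) (i : D.I) : ∃ Q : ℝ, 0 < Q ∧ ∀ s, nrm i (f s) ≤ Q := by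
  refine ⟨1 + ∑ s, nrm i (f s), ?_, fun s => ?_⟩
  · have : 0 ≤ ∑ s, nrm i (f s) := Finset.sum_nonneg fun s _ => nrm_nonneg i _
    linarith
  · have := Finset.single_le_sum (f := fun s => nrm i (f s)) (fun s _ => nrm_nonneg i _) (Finset.mem_univ s)
    linarith

theorem trm_summ (f : Fin N → WAlg D) (F : FreeF N) (i : D.I) : Summable fun w => nrm i (trm f F w) := by
  obtain ⟨Q, hQ, h⟩ := exQ f i
  exact Summable.of_nonneg_of_le (fun w => nrm_nonneg i _) (trm_le f i Q hQ.le h F) (free_summ F Q hQ)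

/-- the evaluation -/
noncomputable def evF (f : Fin N → WAlg D) (F : FreeF N) : WAlg D := ser (trm f F) (trm_summ f F)

theorem cf_evF (f : Fin N → WAlg D) (F : FreeF N) (g : Γ) :
    (evF f F).cf g = ∑' w, F.cf w * (ev f w).cf g := rfl

theorem nrm_evF (f : Fin N → WAlg D) (i : D.I) (Q : ℝ) (hQ : 0 < Q) (h : ∀ s, nrm i (f s) ≤ Q)
    (F : FreeF N) : nrm i (evF f F) ≤ nrm (D := freeData N) ⟨Q, hQ⟩ F := by
  refine (nrm_ser i _ _).trans ?_
  rw [free_nrm]
  exact Summable.tsum_le_tsum (trm_le f i Q hQ.le h F) (trm_summ f F i) (free_summ F Q hQ)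

theorem evF_summ (i : D.I) (f : Fin N → WAlg D) (F : FreeF N) (g : Γ) :
    Summable fun w => F.cf w * (ev f w).cf g := ser_pt i (trm f F) (trm_summ f F i) g

theorem evF_summ_norm (i : D.I) (f : Fin N → WAlg D) (F : FreeF N) (g : Γ) :
    Summable fun w => ‖F.cf w * (ev f w).cf g‖ := ser_pt_norm i (trm f F) (trm_summ f F i) g

theorem evF_mono (f : Fin N → WAlg D) (u : Words N) : evF f (mono (freeData N) u) = ev f u := by
  ext g
  rw [cf_evF, tsum_eq_single u]
  · rw [cf_mono_self, one_mul]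
  · intro w hw
    rw [cf_mono_ne hw, zero_mul]

theorem evF_add (hI : Nonempty D.I) (f : Fin N → WAlg D) (F G : FreeF N) :
    evF f (F + G) = evF f F + evF f G := by
  obtain ⟨i⟩ := hI
  ext g
  rw [cf_evF, cf_add, cf_evF, cf_evF, ← (evF_summ i f F g).tsum_add (evF_summ i f G g)]
  exact tsum_congr fun w => by rw [cf_add, add_mul]

theorem evF_smul (f : Fin N → WAlg D) (z : ℂ) (F : FreeF N) : evF f (z • F) = z • evF f F := by
  ext g
  rw [cf_evF, cf_smul, cf_evF, ← tsum_mul_left]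
  exact tsum_congr fun w => by rw [cf_smul, mul_assoc]

theorem evF_mul (hI : Nonempty D.I) (f : Fin N → WAlg D) (F G : FreeF N) :
    evF f (F * G) = evF f F * evF f G := by
  obtain ⟨i⟩ := hI
  ext g
  -- the pair family
  have hs : ∀ p : Γ × Γ, Summable fun x : Words N × Words N =>
      D.β p.1 p.2 * ((F.cf x.1 * (ev f x.1).cf p.1) * (G.cf x.2 * (ev f x.2).cf p.2)) := fun p =>
    (summable_mul_of_summable_norm (evF_summ_norm i f F p.1) (evF_summ_norm i f G p.2)).mul_left _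
  have h1 : (evF f F * evF f G).cf g = ∑ p ∈ Finset.HasAntidiagonal.antidiagonal g,
      ∑' x : Words N × Words N,
        D.β p.1 p.2 * ((F.cf x.1 * (ev f x.1).cf p.1) * (G.cf x.2 * (ev f x.2).cf p.2)) := by
    rw [cf_mul]
    refine Finset.sum_congr rfl fun p _ => ?_
    rw [cf_evF, cf_evF, mul_assoc,
      tsum_mul_tsum_of_summable_norm (evF_summ_norm i f F p.1) (evF_summ_norm i f G p.2), tsum_mul_left]
  have h2 : ∀ x : Words N × Words N, ∑ p ∈ Finset.HasAntidiagonal.antidiagonal g,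
      D.β p.1 p.2 * ((F.cf x.1 * (ev f x.1).cf p.1) * (G.cf x.2 * (ev f x.2).cf p.2))
      = F.cf x.1 * G.cf x.2 * (ev f (x.1 + x.2)).cf g := by
    intro x
    rw [ev_add, cf_mul, Finset.mul_sum]
    exact Finset.sum_congr rfl fun p _ => by ring
  have h3 : (evF f F * evF f G).cf g
      = ∑' x : Words N × Words N, F.cf x.1 * G.cf x.2 * (ev f (x.1 + x.2)).cf g := by
    rw [h1, ← Summable.tsum_finsetSum fun p _ => hs p]
    exact tsum_congr h2
  have h4 : Summable fun x : Words N × Words N => F.cf x.1 * G.cf x.2 * (ev f (x.1 + x.2)).cf g :=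
    (summable_sum fun p (_ : p ∈ Finset.HasAntidiagonal.antidiagonal g) => hs p).congr
      h2
  rw [h3, cf_evF, ← Finset.HasAntidiagonal.sigmaAntidiagonalEquivProd.tsum_eq (_ : Words N × Words N → ℂ)]
  have h5 := (Finset.HasAntidiagonal.sigmaAntidiagonalEquivProd (A := Words N)).summable_iff.2 h4
  have h6 := h5.tsum_sigma' (fun g => (hasSum_fintype _).summable)
  refine Eq.trans ?_ h6.symm
  refine tsum_congr fun w => ?_
  rw [tsum_fintype]
  refine Eq.trans ?_ (Finset.sum_coe_sort (Finset.HasAntidiagonal.antidiagonal w)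
    (fun p : Words N × Words N => F.cf p.1 * G.cf p.2 * (ev f (p.1 + p.2)).cf g)).symm
  rw [cf_mul, Finset.sum_mul]
  refine Finset.sum_congr rfl fun p hp => ?_
  rw [Finset.HasAntidiagonal.mem_antidiagonal.1 hp]
  show (1 : ℂ) * _ * _ * _ = _
  ring

theorem evF_one (f : Fin N → WAlg D) : evF f (1 : FreeF N) = 1 := by
  rw [one_def, evF_mono, ev_zero]

/-- the evaluation homomorphism -/
noncomputable def evHom (hI : Nonempty D.I) (f : Fin N → WAlg D) : FreeF N →ₐ[ℂ] WAlg D :=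
  AlgHom.ofLinearMap
    { toFun := evF f
      map_add' := evF_add hI f
      map_smul' := evF_smul f }
    (evF_one f) (evF_mul hI f)

theorem evHom_apply (hI : Nonempty D.I) (f : Fin N → WAlg D) (F : FreeF N) : evHom hI f F = evF f F := rfl

theorem t_EVAL : S_EVAL := by
  intro Γ _ _ D N hI
  refine ⟨evHom hI, fun f s => ?_, fun f i Q hQ h F => ?_, fun f g i Q δ hQ hδ hf hg hd F => ?_⟩
  · rw [evHom_apply, evF_mono, ev_of]
  · rw [evHom_apply]
    exact nrm_evF f i Q hQ h F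
  · rw [evHom_apply, evHom_apply]
    have hQ2 : 0 < 2 * Q := by linarith
    have hb : ∀ j : D.I, Summable fun w => nrm j (trm f F w - trm g F w) := fun j =>
      Summable.of_nonneg_of_le (fun w => nrm_nonneg j _) (fun w => nrm_sub j _ _)
        ((trm_summ f F j).add (trm_summ g F j))
    have e : evF f F - evF g F = ser (fun w => trm f F w - trm g F w) hb := by
      ext k
      rw [cf_sub, cf_ser, cf_evF, cf_evF, ← (evF_summ i f F k).tsum_sub (evF_summ i g F k)]
      exact tsum_congr fun w => rfl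
    rw [e]
    refine (nrm_ser i _ _).trans ?_
    rw [free_nrm, ← tsum_mul_left]
    refine Summable.tsum_le_tsum (fun w => ?_) (hb i) ((free_summ F _ hQ2).mul_left δ)
    unfold trm
    rw [← smul_sub, nrm_smul]
    calc ‖F.cf w‖ * nrm i (ev f w - ev g w) ≤ ‖F.cf w‖ * (δ * (2 * Q) ^ wlen w) :=
          mul_le_mul_of_nonneg_left (list_lip f g i Q δ hQ hδ hf hg hd _) (norm_nonneg _)
      _ = δ * (‖F.cf w‖ * (2 * Q) ^ wlen w) := by ring

end K1H45.HF
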