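import Pool.Agent.K1H25.HF.Stm

/-!
Absolutely convergent series in `WAlg D`; the piece `t_COMPL` of MP_da1489_an.
-/

namespace K1H45.HF

open K1H25.HF K1H25.HF.WAlg

variable {Γ : Type} [AddMonoid Γ] [Finset.HasAntidiagonal Γ] {D : WData Γ} {W : Type}

theorem ser_prod (i : D.I) (y : W → WAlg D) (h : Summable fun w => nrm i (y w)) :
    Summable fun x : W × Γ => ‖(y x.1).cf x.2‖ * D.wt i x.2 := by
  rw [summable_prod_of_nonneg (fun x => mul_nonneg (norm_nonneg _) (D.wt_pos i _).le)]
  exact ⟨fun w => (y w).summ i, h⟩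

theorem ser_pt_norm (i : D.I) (y : W → WAlg D) (h : Summable fun w => nrm i (y w)) (g : Γ) :
    Summable fun w => ‖(y w).cf g‖ := by
  refine Summable.of_nonneg_of_le (fun w => norm_nonneg _) (fun w => ?_) (h.mul_right (D.wt i g)⁻¹)
  have h1 := le_nrm i (y w) g
  have h2 := D.wt_pos i g
  rw [← div_eq_mul_inv, le_div_iff₀ h2]
  exact h1

theorem ser_pt (i : D.I) (y : W → WAlg D) (h : Summable fun w => nrm i (y w)) (g : Γ) :
    Summable fun w => (y w).cf g := (ser_pt_norm i y h g).of_norm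

theorem ser_le (i : D.I) (y : W → WAlg D) (h : Summable fun w => nrm i (y w)) (g : Γ) :
    ‖∑' w, (y w).cf g‖ * D.wt i g ≤ ∑' w, ‖(y w).cf g‖ * D.wt i g := by
  rw [tsum_mul_right]
  exact mul_le_mul_of_nonneg_right (norm_tsum_le_tsum_norm (ser_pt_norm i y h g)) (D.wt_pos i g).le

theorem ser_sw (i : D.I) (y : W → WAlg D) (h : Summable fun w => nrm i (y w)) :
    Summable fun g => ∑' w, ‖(y w).cf g‖ * D.wt i g :=
  (ser_prod i y h).prod_symm.prod

/-- the sum of an absolutely convergent series -/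
noncomputable def ser (y : W → WAlg D) (h : ∀ i, Summable fun w => nrm i (y w)) : WAlg D :=
  ⟨fun g => ∑' w, (y w).cf g, fun i =>
    Summable.of_nonneg_of_le (fun g => mul_nonneg (norm_nonneg _) (D.wt_pos i g).le)
      (ser_le i y (h i)) (ser_sw i y (h i))⟩

theorem cf_ser (y : W → WAlg D) (h : ∀ i, Summable fun w => nrm i (y w)) (g : Γ) :
    (ser y h).cf g = ∑' w, (y w).cf g := rfl

theorem nrm_ser (i : D.I) (y : W → WAlg D) (h : ∀ i, Summable fun w => nrm i (y w)) :
    nrm i (ser y h) ≤ ∑' w, nrm i (y w) := by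
  have h1 : nrm i (ser y h) ≤ ∑' g, ∑' w, ‖(y w).cf g‖ * D.wt i g :=
    Summable.tsum_le_tsum (ser_le i y (h i)) ((ser y h).summ i) (ser_sw i y (h i))
  refine h1.trans (le_of_eq ?_)
  exact Summable.tsum_comm (f := fun w g => ‖(y w).cf g‖ * D.wt i g) (ser_prod i y (h i))

theorem t_COMPL : S_COMPL := by
  intro Γ _ _ D a h
  refine ⟨ser a h, fun i J => ?_⟩
  have hJ : ∀ i, Summable fun j => nrm i (a (j + J)) := fun i =>
    (summable_nat_add_iff (f := fun j => nrm i (a j)) J).2 (h i)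
  have e : ser a h - ∑ j ∈ Finset.range J, a j = ser (fun j => a (j + J)) hJ := by
    ext g
    have e1 : (∑ j ∈ Finset.range J, a j).cf g = ∑ j ∈ Finset.range J, (a j).cf g := by
      induction J with
      | zero => simp
      | succ J ih =>
        rw [Finset.sum_range_succ, Finset.sum_range_succ, cf_add, ih]
        exact fun i => (summable_nat_add_iff (f := fun j => nrm i (a j)) J).2 (h i)
    rw [cf_sub, cf_ser, cf_ser, e1, ← (ser_pt i a (h i) g).sum_add_tsum_nat_add J]
    ring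
  rw [e]
  exact nrm_ser i _ hJ

end K1H45.HF
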